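import Mathlib
import Pool.Agent.W4.CF.Stms
import Pool.Agent.H510R2.Div

/-!
# The number of ideals dividing a positive integer
-/

set_option autoImplicit false

namespace Pool.Agent.W578.CF

open NumberField Pool.Agent.W4.CF UniqueFactorizationMonoid

section
variable {K : Type} [Field K] [NumberField K]

/-- `I` has at most `N` divisors -/
def Dv (I : Ideal (𝓞 K)) (N : ℕ) : Prop :=
  ∃ s : Finset (Ideal (𝓞 K)), s.card ≤ N ∧ ∀ J, J ∣ I → J ∈ s

theorem Dv.mul {I I' : Ideal (𝓞 K)} {N N' : ℕ} (h : Dv I N) (h' : Dv I' N') :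
    Dv (I * I') (N * N') := by
  classical
  obtain ⟨s, hs, h1⟩ := h
  obtain ⟨s', hs', h2⟩ := h'
  refine ⟨(s ×ˢ s').image (fun p => p.1 * p.2), ?_, fun J hJ => ?_⟩
  · refine Finset.card_image_le.trans ?_
    rw [Finset.card_product]
    exact Nat.mul_le_mul hs hs'
  · obtain ⟨a, b, ha, hb, rfl⟩ := exists_dvd_and_dvd_of_dvd_mul hJ
    exact Finset.mem_image.2 ⟨(a, b), Finset.mem_product.2 ⟨h1 a ha, h2 b hb⟩, rfl⟩

theorem Dv.mono {I : Ideal (𝓞 K)} {N N' : ℕ} (h : Dv I N) (h' : N ≤ N') : Dv I N' := by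
  obtain ⟨s, hs, h1⟩ := h
  exact ⟨s, hs.trans h', h1⟩

theorem Dv.one : Dv (1 : Ideal (𝓞 K)) 1 := by
  refine ⟨{1}, by simp, fun J hJ => ?_⟩
  rw [Finset.mem_singleton]
  exact associated_iff_eq.1 (associated_one_iff_isUnit.2 (isUnit_of_dvd_one hJ))

theorem Dv.primePow {P : Ideal (𝓞 K)} (hP : Prime P) (e : ℕ) : Dv (P ^ e) (e + 1) := by
  classical
  refine ⟨(Finset.range (e + 1)).image (fun i => P ^ i), ?_, fun J hJ => ?_⟩
  · exact Finset.card_image_le.trans (by simp)
  · obtain ⟨i, hi, hJ'⟩ := (dvd_prime_pow hP e).1 hJ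
    rw [associated_iff_eq] at hJ'
    exact Finset.mem_image.2 ⟨i, Finset.mem_range.2 (by omega), hJ'.symm⟩

theorem Dv.multiset (s : Multiset (Ideal (𝓞 K))) (hs : ∀ P ∈ s, Prime P) (e : ℕ) :
    Dv (s.prod ^ e) ((e + 1) ^ Multiset.card s) := by
  induction s using Multiset.induction_on with
  | empty =>
    rw [Multiset.prod_zero, one_pow, Multiset.card_zero, pow_zero]
    exact Dv.one
  | cons P s ih =>
    rw [Multiset.prod_cons, mul_pow, Multiset.card_cons, pow_succ, mul_comm ((e + 1) ^ _)]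
    exact (Dv.primePow (hs P (Multiset.mem_cons_self P s)) e).mul
      (ih fun Q hQ => hs Q (Multiset.mem_cons_of_mem hQ))

/-- the number of prime factors of `(p)` -/
theorem card_le (p : ℕ) (hp : p.Prime) :
    Multiset.card (normalizedFactors (Ideal.span {(p : 𝓞 K)})) ≤ Module.finrank ℚ K := by
  have hp0 : Ideal.span {(p : 𝓞 K)} ≠ 0 := by
    rw [Ne, Ideal.zero_eq_bot, Ideal.span_singleton_eq_bot]
    exact_mod_cast hp.ne_zero
  have hnorm : Ideal.absNorm (Ideal.span {(p : 𝓞 K)}) = p ^ Module.finrank ℚ K := by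
    rw [Ideal.absNorm_span_natCast, RingOfIntegers.rank]
  have hprod : (normalizedFactors (Ideal.span {(p : 𝓞 K)})).prod = Ideal.span {(p : 𝓞 K)} :=
    associated_iff_eq.1 (prod_normalizedFactors hp0)
  have hge : ∀ P ∈ normalizedFactors (Ideal.span {(p : 𝓞 K)}), p ≤ Ideal.absNorm P := by
    intro P hP
    have h1 : P ∣ Ideal.span {(p : 𝓞 K)} := dvd_of_mem_normalizedFactors hP
    have h2 : Ideal.absNorm P ∣ p ^ Module.finrank ℚ K := by
      rw [← hnorm]
      exact map_dvd Ideal.absNorm h1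
    obtain ⟨i, hi, h3⟩ := (Nat.dvd_prime_pow hp).1 h2
    have h4 : i ≠ 0 := by
      rintro rfl
      rw [pow_zero, Ideal.absNorm_eq_one_iff] at h3
      have h5 := (prime_of_normalized_factor P hP).not_isUnit
      rw [h3, ← Ideal.one_eq_top] at h5
      exact h5 isUnit_one
    rw [h3]
    exact Nat.le_self_pow h4 p
  have hle : ∀ s : Multiset (Ideal (𝓞 K)), (∀ P ∈ s, p ≤ Ideal.absNorm P) →
      p ^ Multiset.card s ≤ Ideal.absNorm s.prod := by
    intro s
    induction s using Multiset.induction_on with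
    | empty => intro _; simp
    | cons P s ih =>
      intro h
      rw [Multiset.prod_cons, Multiset.card_cons, pow_succ, map_mul, mul_comm]
      exact Nat.mul_le_mul (h P (Multiset.mem_cons_self P s))
        (ih fun Q hQ => h Q (Multiset.mem_cons_of_mem hQ))
  have h1 := hle _ hge
  rw [hprod, hnorm] at h1
  exact (Nat.pow_le_pow_iff_right hp.one_lt).1 h1

theorem Dv.nat (n : ℕ) (hn : 0 < n) :
    Dv (Ideal.span {(n : 𝓞 K)}) (n.divisors.card ^ Module.finrank ℚ K) := by
  induction n using Nat.recOnPosPrimePosCoprime with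
  | zero => omega
  | one =>
    rw [Nat.cast_one, Ideal.span_singleton_one, ← Ideal.one_eq_top, Nat.divisors_one,
      Finset.card_singleton, one_pow]
    exact Dv.one
  | prime_pow p e hp he =>
    have hp0 : Ideal.span {(p : 𝓞 K)} ≠ 0 := by
      rw [Ne, Ideal.zero_eq_bot, Ideal.span_singleton_eq_bot]
      exact_mod_cast hp.ne_zero
    have hprod : (normalizedFactors (Ideal.span {(p : 𝓞 K)})).prod = Ideal.span {(p : 𝓞 K)} :=
      associated_iff_eq.1 (prod_normalizedFactors hp0)
    have h1 := Dv.multiset (normalizedFactors (Ideal.span {(p : 𝓞 K)}))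
      (fun P hP => prime_of_normalized_factor P hP) e
    rw [hprod, Ideal.span_singleton_pow] at h1
    rw [Nat.cast_pow, Nat.divisors_prime_pow hp, Finset.card_map, Finset.card_range]
    exact h1.mono (Nat.pow_le_pow_right (by omega) (card_le p hp))
  | coprime a b ha hb hab iha ihb =>
    rw [Nat.cast_mul, ← Ideal.span_singleton_mul_span_singleton, hab.card_divisors_mul, mul_pow]
    exact (iha (by omega)).mul (ihb (by omega))

end

/-- DIVS -/
theorem t_DIVS : S_DIVS := by
  intro K _ _ ε hε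
  have hd : 0 < Module.finrank ℚ K := Module.finrank_pos
  set d := Module.finrank ℚ K with hdd
  obtain ⟨C, hC, h⟩ := Pool.Agent.H510R2.divisor_bound (ε / d) (by positivity)
  refine ⟨C ^ d, by positivity, fun n hn t ht => ?_⟩
  obtain ⟨s, hs, h1⟩ := Dv.nat (K := K) n (by omega)
  have h2 : t.card ≤ n.divisors.card ^ d :=
    (Finset.card_le_card fun J hJ => h1 J (ht J hJ)).trans hs
  have h3 : (t.card : ℝ) ≤ (n.divisors.card : ℝ) ^ d := by exact_mod_cast h2
  have h4 := pow_le_pow_left₀ (Nat.cast_nonneg _) (h n hn) d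
  refine (h3.trans h4).trans (le_of_eq ?_)
  rw [mul_pow, ← Real.rpow_natCast, ← Real.rpow_natCast, ← Real.rpow_mul (Nat.cast_nonneg _)]
  congr 2
  field_simp

end Pool.Agent.W578.CF
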